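import Pool.Agent.helper32.EXD.Spec

set_option autoImplicit false

open Finset

namespace Pool.Agent.EXD

open Pool.Agent.EXC

theorem DMN_nn {n : ℕ} (C : Matrix (Fin n) (Fin n) ℤ) [IsC C] (v β : Fin n → ℤ) (hβ : ∀ i, 0 ≤ ip C β (sr i))
    (hv : Pos v) : 0 ≤ ip C v β := by
  rw [ip_eq_sum]
  refine Finset.sum_nonneg fun i _ => mul_nonneg (hv i) ?_
  rw [ip_comm]
  exact hβ i

theorem DMN_pos {n : ℕ} (C : Matrix (Fin n) (Fin n) ℤ) [IsC C] (hDIC : DIC_stmt) (β : Fin n → ℤ) (hβ : ip C β β = 2)
    (hd : ∀ i, 0 ≤ ip C β (sr i)) : Pos β := by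
  rcases hDIC n C β hβ with h | h
  · exact h
  · exfalso
    have h1 := DMN_nn C (-β) β hd h
    rw [ip_neg_left, hβ] at h1
    omega

theorem DMN (hDIC : DIC_stmt) : DMN_stmt := by
  classical
  intro n C hC j0 θ δ hE
  have hθd : ∀ i, 0 ≤ ip C θ (sr i) := by
    intro i
    rw [hE.thd i]
    split_ifs <;> norm_num
  have hθp : Pos θ := DMN_pos C hDIC θ hE.th2 hθd
  have h2 : ∀ γ, Pos γ → 0 ≤ ip C γ θ := fun γ hγ => DMN_nn C γ θ hθd hγ
  refine ⟨hθp, h2, ?_, ?_⟩
  · intro γ hγ h1
    rcases hDIC n C γ hγ with h | h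
    · exact h
    · exfalso
      have h3 := h2 (-γ) h
      rw [ip_neg_left] at h3
      omega
  · intro β hβ hne
    by_contra hcon
    push Not at hcon
    have hd : ∀ i, 0 ≤ ip C β (sr i) := by
      intro i
      have h3 := ip_abs_le hβ (ip_sr_self C i)
      have h4 := (hcon i).1
      have h5 : ip C β (sr i) ≠ -2 := fun h => (hcon i).2 (by
        have h6 := eq_neg_of_ip_eq_neg_two hβ (ip_sr_self C i) h
        rw [h6, neg_neg])
      omega
    have hp := DMN_pos C hDIC β hβ hd
    have hsupp : ∀ i, 0 < β i := by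
      by_contra hn
      push Not at hn
      obtain ⟨i0, hi0⟩ := hn
      have hKne : (Finset.univ.filter fun i => 0 < β i).Nonempty := by
        rw [Finset.nonempty_iff_ne_empty]
        intro he
        have hb : β = 0 := by
          funext i
          have h3 : ¬ 0 < β i := fun h => by
            have h4 : i ∈ (Finset.univ.filter fun i => 0 < β i) := Finset.mem_filter.2 ⟨Finset.mem_univ i, h⟩
            rw [he] at h4
            exact absurd h4 (Finset.notMem_empty i)
          have h4 := hp i
          show β i = 0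
          omega
        rw [hb, ip_zero_left] at hβ
        omega
      have hKu : (Finset.univ.filter fun i => 0 < β i) ≠ Finset.univ := by
        intro he
        have h3 : i0 ∈ (Finset.univ.filter fun i => 0 < β i) := by
          rw [he]
          exact Finset.mem_univ i0
        have h4 := (Finset.mem_filter.1 h3).2
        omega
      obtain ⟨i, hi, j, hj, hij⟩ := hE.con _ (Finset.subset_univ _) hKne hKu
      have hi' := (Finset.mem_filter.1 hi).2
      have hj' : ¬ 0 < β j := fun h => (Finset.mem_sdiff.1 hj).2 (Finset.mem_filter.2 ⟨Finset.mem_univ j, h⟩)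
      have hj0 : β j = 0 := by
        have h4 := hp j
        omega
      have hne' : i ≠ j := by
        rintro rfl
        exact hj' hi'
      have hneg : C i j < 0 := lt_of_le_of_ne (IsC.off (C := C) i j hne') hij
      have h5 := hd j
      rw [ip_sr_right, ← Finset.add_sum_erase _ _ (Finset.mem_univ i)] at h5
      have h6 : ∑ k ∈ Finset.univ.erase i, β k * C k j ≤ 0 := by
        refine Finset.sum_nonpos fun k _ => ?_
        by_cases hk : k = j
        · rw [hk, hj0, zero_mul]
        · exact mul_nonpos_of_nonneg_of_nonpos (hp k) (IsC.off (C := C) k j hk)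
      have h7 : β i * C i j < 0 := mul_neg_of_pos_of_neg hi' hneg
      omega
    have h8 : ip C β θ = β j0 := by
      rw [ip_eq_sum, Finset.sum_eq_single j0]
      · rw [ip_comm, hE.thd j0, if_pos rfl, mul_one]
      · intro i _ hi
        rw [ip_comm, hE.thd i, if_neg hi, mul_zero]
      · intro h
        exact absurd (Finset.mem_univ j0) h
    have h9 := hsupp j0
    have h10 := ip_abs_le hβ hE.th2
    have h11 : ip C β θ ≠ 2 := fun h => hne (eq_of_ip_eq_two hβ hE.th2 h)
    have h12 : ip C β θ = 1 := by omega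
    have h12' : ip C θ β = 1 := by rw [ip_comm]; exact h12
    have h13 : ip C (θ - β) (θ - β) = 2 := by
      rw [ip_sub_left, ip_sub_right, ip_sub_right, hE.th2, hβ, h12, h12']
      norm_num
    rcases hDIC n C (θ - β) h13 with h | h
    · have h14 := DMN_nn C (θ - β) β hd h
      rw [ip_sub_left, h12', hβ] at h14
      omega
    · have h14 := h2 _ h
      rw [ip_neg_left, ip_sub_left, h12, hE.th2] at h14
      omega

end Pool.Agent.EXD
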