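import Pool.Agent.helper32.EXD.Spec

set_option autoImplicit false

open Finset

namespace Pool.Agent.EXD

open Pool.Agent.EXC

theorem GEO_inv {n : ℕ} {C : Matrix (Fin n) (Fin n) ℤ} {F : Type} [Field F] (k : Lm C F ≃ₗ[F] Lm C F) (v : Lm C F) : k (k⁻¹ v) = v := by
  have h : (k * k⁻¹) v = v := by
    rw [mul_inv_cancel]
    rfl
  exact h

theorem GEO_inv' {n : ℕ} {C : Matrix (Fin n) (Fin n) ℤ} {F : Type} [Field F] (k : Lm C F ≃ₗ[F] Lm C F) (v : Lm C F) : k⁻¹ (k v) = v := by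
  have h : (k⁻¹ * k) v = v := by
    rw [inv_mul_cancel]
    rfl
  exact h

theorem GEO (hPCL : PCL_stmt) (hTPF : TPF_stmt) (hIMX : IMX_stmt) (hIMT : IMT_stmt) (hWUQ : WUQ_stmt) (hFIX : FIX_stmt) (hUNQ : UNQ_stmt) (hACT : ACT_stmt) (hEXF : EXF_stmt) (hNBR : NBR_stmt) : GEO_stmt := by
  intro n C _ F _ j0 θ δ hE x hx hx1
  by_contra hcon
  have hθ : ip C θ θ = 2 := hE.th2
  have hnb : ∀ α, ip C α α = 2 → ∃ β, ip C β β = 2 ∧ ip C α β = -1 := (hNBR n C j0 θ δ hE).1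
  obtain ⟨hAu, hExE, hExF, -⟩ := hEXF n C F hnb
  obtain ⟨im1, im2, im3, im4⟩ := hIMX n C F j0 θ δ hE x hx
  have H : ∀ a a' : Lm C F, Ex C a → Ex C a' → Im C x a a' → Tp C θ a a' 1 ∨ Tp C θ a a' 2 := by
    intro a a' ha ha' him
    obtain ⟨m, hm1, hm2, hT⟩ := hPCL n C F j0 θ δ hE a a' ha ha'
    have h3 : ¬ (m = -2 ∨ m = -1 ∨ m = 0) := fun h => hcon ⟨a, a', m, ha, ha', him, hT, h⟩
    have h4 : m = 1 ∨ m = 2 := by omega
    rcases h4 with h4 | h4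
    · exact Or.inl (h4 ▸ hT)
    · exact Or.inr (h4 ▸ hT)
  -- a point which is moved
  obtain ⟨a, ha, hna⟩ : ∃ a : Lm C F, Ex C a ∧ ¬ Im C x a a := by
    by_contra hall
    refine hx1 ((hFIX n C F j0 θ δ hE).1 x fun a ha => ?_)
    by_contra h
    exact hall ⟨a, ha, h⟩
  obtain ⟨a', ha', him⟩ := im1 a ha
  have ht1 : Tp C θ a a' 1 := by
    rcases H a a' ha ha' him with h | h
    · exact h
    · exfalso
      obtain ⟨c, hc⟩ := (hTPF n C F θ hθ hnb a a' 2 h).2.2.2.2.1.1 rfl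
      have hc0 : c ≠ 0 := by
        rintro rfl
        exact (hExF a' ha').2.1 (by rw [hc, zero_smul])
      have h2 := im4 a a' 1 c⁻¹ ha ha' one_ne_zero (inv_ne_zero hc0) him
      rw [one_smul, hc, smul_smul, inv_mul_cancel₀ hc0, one_smul] at h2
      exact hna h2
  obtain ⟨k, hk, β, hβ, hθβ, c, c', hc, hc', hka, hka'⟩ := ht1
  have hβθ : ip C β θ = 1 := by rw [ip_comm, hθβ]
  have hγ : ip C (θ - β) (θ - β) = 2 := (sub_root_iff hθ hβ).2 hθβ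
  have hθγ : ip C θ (θ - β) = 1 := by rw [ip_sub_right, hθ, hθβ]; norm_num
  have hβγ : ip C β (θ - β) = -1 := by rw [ip_sub_right, hβθ, hβ]; norm_num
  have hsum : β + (θ - β) = θ := by abel
  have hβ0 : β ≠ 0 := by
    rintro rfl
    rw [ip_zero_left] at hβ
    norm_num at hβ
  have hne : θ - β ≠ θ := fun h => hβ0 (by rwa [sub_eq_self] at h)
  -- the main step
  have key : ∀ k ∈ GE C F, Im C x (k⁻¹ (E C θ : Lm C F)) (k⁻¹ (E C β : Lm C F)) → ∀ B' : Lm C F, Ex C B' →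
      Im C x (k⁻¹ (E C (θ - β) : Lm C F)) B' → ∃ κ : F, B' = κ • k⁻¹ (E C θ : Lm C F) := by
    intro k hk imA B' hB' imB
    have hk' : k⁻¹ ∈ GE C F := (GE C F).inv_mem hk
    have hA : Ex C (k⁻¹ (E C θ : Lm C F)) := (hExF _ (hExE θ hθ)).2.2.1 _ hk'
    have hA' : Ex C (k⁻¹ (E C β : Lm C F)) := (hExF _ (hExE β hβ)).2.2.1 _ hk'
    have hB : Ex C (k⁻¹ (E C (θ - β) : Lm C F)) := (hExF _ (hExE (θ - β) hγ)).2.2.1 _ hk'
    have au := hAu k hk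
    have t1 : Tp C θ (k⁻¹ (E C θ : Lm C F)) (k⁻¹ (E C (θ - β) : Lm C F)) 1 :=
      ⟨k, hk, θ - β, hγ, hθγ, 1, 1, one_ne_zero, one_ne_zero, by rw [GEO_inv, one_smul], by rw [GEO_inv, one_smul]⟩
    have t2 : Tp C θ (k⁻¹ (E C β : Lm C F)) B' 1 := hIMT n C F j0 θ δ hE x hx _ _ _ _ hA' hB' imA imB t1
    obtain ⟨w, hw1, hw2⟩ := (hTPF n C F θ hθ hnb _ _ 1 t2).2.2.2.2.2.2.1 rfl
    have e1 : k B' = br C (E C β : Lm C F) (k w) := by rw [hw2, au.br, GEO_inv]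
    have e2 : fm C (E C β : Lm C F) (k w) = 0 := by
      have h := au.fm (k⁻¹ (E C β : Lm C F)) w
      rw [GEO_inv] at h
      rw [h, hw1]
    rcases H _ _ hB hB' imB with t3 | t3
    · obtain ⟨v, hv1, hv2⟩ := (hTPF n C F θ hθ hnb _ _ 1 t3).2.2.2.2.2.2.1 rfl
      have e3 : k B' = br C (E C (θ - β) : Lm C F) (k v) := by rw [hv2, au.br, GEO_inv]
      have e4 : fm C (E C (θ - β) : Lm C F) (k v) = 0 := by
        have h := au.fm (k⁻¹ (E C (θ - β) : Lm C F)) v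
        rw [GEO_inv] at h
        rw [h, hv1]
      obtain ⟨κ, hκ⟩ := hWUQ n C F β (θ - β) hβ hγ hβγ 1 1 (k w) (k v) (k B') (by rw [one_smul]; exact e2)
        (by rw [one_smul]; exact e4) (by rw [one_smul]; exact e1) (by rw [one_smul]; exact e3)
      rw [hsum] at hκ
      refine ⟨κ, ?_⟩
      rw [← map_smul, ← hκ, GEO_inv']
    · exfalso
      obtain ⟨c, hc⟩ := (hTPF n C F θ hθ hnb _ _ 2 t3).2.2.2.2.1.1 rfl
      have hc0 : c ≠ 0 := by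
        rintro rfl
        exact (hExF B' hB').2.1 (by rw [hc, zero_smul])
      have e5 : k B' = c • (E C (θ - β) : Lm C F) := by rw [hc, map_smul, GEO_inv]
      have e6 : (E C (θ - β) : Lm C F) = br C (E C β : Lm C F) (c⁻¹ • k w) := by
        rw [br_smul_right, ← e1, e5, smul_smul, inv_mul_cancel₀ hc0, one_smul]
      have e7 : fm C (E C β : Lm C F) (c⁻¹ • k w) = 0 := by rw [fm_smul_right, e2, mul_zero]
      have e8 : fm C (E C (θ - β) : Lm C F) (ht C β) = 0 := fm_E_H C hγ _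
      have e9 : (E C (θ - β) : Lm C F) = br C (E C (θ - β) : Lm C F) (ht C β) := by
        have h := br_E_H (F := F) C hγ (fun i => (β i : F))
        have h' : (ht C β : Lm C F) = ((fun i => (β i : F)), 0) := rfl
        rw [h', h, ev_coroot, ip_comm, hβγ]
        simp
      obtain ⟨κ, hκ⟩ := hWUQ n C F β (θ - β) hβ hγ hβγ 1 1 (c⁻¹ • k w) (ht C β) (E C (θ - β)) (by rw [one_smul]; exact e7)
        (by rw [one_smul]; exact e8) (by rw [one_smul]; exact e6) (by rw [one_smul]; exact e9)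
      rw [hsum] at hκ
      have h10 := congrArg (fun y : Lm C F => cf y (θ - β)) hκ
      simp only [cf_smul] at h10
      rw [cf_E C hγ, cf_E C hθ, if_pos rfl, if_neg hne, mul_zero] at h10
      exact one_ne_zero h10
  have hk' : k⁻¹ ∈ GE C F := (GE C F).inv_mem hk
  -- the first pair
  have ea : c⁻¹ • a = k⁻¹ (E C θ : Lm C F) := by
    rw [← GEO_inv' k a, hka, map_smul, smul_smul, inv_mul_cancel₀ hc, one_smul]
  have ea' : c'⁻¹ • a' = k⁻¹ (E C β : Lm C F) := by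
    rw [← GEO_inv' k a', hka', map_smul, smul_smul, inv_mul_cancel₀ hc', one_smul]
  have imA : Im C x (k⁻¹ (E C θ : Lm C F)) (k⁻¹ (E C β : Lm C F)) := by
    rw [← ea, ← ea']
    exact im4 a a' c⁻¹ c'⁻¹ ha ha' (inv_ne_zero hc) (inv_ne_zero hc') him
  have hA : Ex C (k⁻¹ (E C θ : Lm C F)) := (hExF _ (hExE θ hθ)).2.2.1 _ hk'
  have hB : Ex C (k⁻¹ (E C (θ - β) : Lm C F)) := (hExF _ (hExE (θ - β) hγ)).2.2.1 _ hk'
  obtain ⟨B', hB', imB⟩ := im1 _ hB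
  obtain ⟨κ, hκ⟩ := key k hk imA B' hB' imB
  -- the second pair
  obtain ⟨h, hhG, hh⟩ := (hExF _ (hExE β hβ)).2.2.2.2.1 1
  obtain ⟨ac1, ac2, -⟩ := hACT n C F β 1 hβ
  have f1 : h (E C θ : Lm C F) = E C θ := by
    rw [hh, ac1 θ hθ (by rw [hβθ]; norm_num)]
  have f2 : h (E C β : Lm C F) = E C β := by
    rw [hh, ac1 β hβ (by rw [hβ]; norm_num)]
  have f3 : h (E C (θ - β) : Lm C F) = E C (θ - β) + ((sg C β (θ - β) : ℤ) : F) • E C θ := by
    rw [hh, ac2 (θ - β) hγ hβγ, one_mul, hsum]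
  have g1 : ∀ v : Lm C F, (h⁻¹ * k)⁻¹ v = k⁻¹ (h v) := by
    intro v
    rw [mul_inv_rev, inv_inv]
    rfl
  have hk2 : h⁻¹ * k ∈ GE C F := (GE C F).mul_mem ((GE C F).inv_mem hhG) hk
  have imA2 : Im C x ((h⁻¹ * k)⁻¹ (E C θ : Lm C F)) ((h⁻¹ * k)⁻¹ (E C β : Lm C F)) := by
    rw [g1, g1, f1, f2]
    exact imA
  have hB2 : Ex C ((h⁻¹ * k)⁻¹ (E C (θ - β) : Lm C F)) := (hExF _ (hExE (θ - β) hγ)).2.2.1 _ ((GE C F).inv_mem hk2)
  obtain ⟨B2', hB2', imB2⟩ := im1 _ hB2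
  obtain ⟨κ2, hκ2⟩ := key (h⁻¹ * k) hk2 imA2 B2' hB2' imB2
  rw [g1, f1] at hκ2
  have hκ0 : κ ≠ 0 := by
    rintro rfl
    exact (hExF B' hB').2.1 (by rw [hκ, zero_smul])
  have hκ20 : κ2 ≠ 0 := by
    rintro rfl
    exact (hExF B2' hB2').2.1 (by rw [hκ2, zero_smul])
  have i1 := im4 _ B' 1 κ⁻¹ hB hB' one_ne_zero (inv_ne_zero hκ0) imB
  rw [one_smul, hκ, smul_smul, inv_mul_cancel₀ hκ0, one_smul] at i1
  have i2 := im4 _ B2' 1 κ2⁻¹ hB2 hB2' one_ne_zero (inv_ne_zero hκ20) imB2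
  rw [one_smul, hκ2, smul_smul, inv_mul_cancel₀ hκ20, one_smul] at i2
  obtain ⟨d, hd0, hd⟩ := im2 _ _ _ hB hB2 hA i1 i2
  rw [g1, f3] at hd
  have j1 := congrArg (fun y => k y) hd
  simp only [GEO_inv, map_smul] at j1
  have j2 := congrArg (fun y : Lm C F => cf y θ) j1
  simp only [cf_smul, cf_add] at j2
  rw [cf_E C hγ, cf_E C hθ, if_pos rfl, if_neg (Ne.symm hne), zero_add, mul_zero, mul_one] at j2
  exact sg_ne_zero C _ _ j2

end Pool.Agent.EXD
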