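import Pool.Agent.helper32.EXD.Spec

/-!
# Project EXC, row IMT: `x` preserves the type 1
-/

set_option autoImplicit false

open Finset

namespace Pool.Agent.EXD

open Pool.Agent.EXC

/-- images of commuting root groups commute -/
theorem IMT_comm {n : ℕ} (C : Matrix (Fin n) (Fin n) ℤ) [IsC C] (F : Type) [Field F] (x : MulAut (EG C F)) (a b a' b' : Lm C F)
    (h1 : Im C x a a') (h2 : Im C x b b')
    (hc : ∀ h k : EG C F, (∃ t, IsX C a t (h : Lm C F ≃ₗ[F] Lm C F)) → (∃ t, IsX C b t (k : Lm C F ≃ₗ[F] Lm C F)) → h * k = k * h) :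
    ∀ h k : EG C F, (∃ t, IsX C a' t (h : Lm C F ≃ₗ[F] Lm C F)) → (∃ t, IsX C b' t (k : Lm C F ≃ₗ[F] Lm C F)) → h * k = k * h := by
  intro h k hh hk
  have e1 : x (x.symm h) = h := x.apply_symm_apply h
  have e2 : x (x.symm k) = k := x.apply_symm_apply k
  have p1 : ∃ t, IsX C a t ((x.symm h : EG C F) : Lm C F ≃ₗ[F] Lm C F) := (h1 (x.symm h)).2 (by rw [e1]; exact hh)
  have p2 : ∃ t, IsX C b t ((x.symm k : EG C F) : Lm C F ≃ₗ[F] Lm C F) := (h2 (x.symm k)).2 (by rw [e2]; exact hk)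
  have q := congrArg x (hc _ _ p1 p2)
  rw [map_mul, map_mul, e1, e2] at q
  exact q

theorem IMT (hPCL : PCL_stmt) (hTPF : TPF_stmt) (hTHR : THR_stmt) (hIMX : IMX_stmt) (hEXF : EXF_stmt) (hNBR : NBR_stmt) (hUNQ : UNQ_stmt) : IMT_stmt := by
  intro n C _ F _ j0 θ δ hE x hx a b a' b' ha' hb' hia hib hT
  have hN := (hNBR n C j0 θ δ hE).1
  obtain ⟨-, -, hX, -⟩ := hEXF n C F hN
  obtain ⟨I1, I2, I3, I4⟩ := hIMX n C F j0 θ δ hE x hx
  obtain ⟨ha, hb, -, -, hp, -, -, hcm⟩ := hTPF n C F θ hE.th2 hN a b 1 hT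
  obtain ⟨m, hm1, hm2, hT'⟩ := hPCL n C F j0 θ δ hE a' b' ha' hb'
  obtain ⟨-, -, -, -, hp', -, -, hcm'⟩ := hTPF n C F θ hE.th2 hN a' b' m hT'
  have hm0 : 0 ≤ m := hcm'.1 (IMT_comm C F x a b a' b' hia hib (hcm.2 (by norm_num)))
  -- proportional images come from proportional vectors
  have key : ∀ u d u' d' : Lm C F, Ex C u → Ex C d → Ex C u' → Ex C d' → Im C x u u' → Im C x d d' → (∃ c : F, d' = c • u') →
      ∃ c : F, d = c • u := by
    intro u d u' d' hu hd hu' hd' h1 h2 h3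
    obtain ⟨c, hc⟩ := h3
    have hc0 : c ≠ 0 := by
      intro h0
      rw [h0, zero_smul] at hc
      exact (hX d' hd').2.1 hc
    have h4 : Im C x u d' := by
      have := I4 u u' 1 c hu hu' one_ne_zero hc0 h1
      rw [one_smul, ← hc] at this
      exact this
    obtain ⟨e, -, he⟩ := I2 u d d' hu hd hd' h4 h2
    exact ⟨e, he⟩
  have hm2' : m ≠ 2 := by
    intro h
    have h3 := key a b a' b' ha hb ha' hb' hia hib (hp'.1 h)
    have h4 := hp.2 h3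
    norm_num at h4
  have hm0' : m ≠ 0 := by
    intro h
    rw [h] at hT'
    obtain ⟨T1, -⟩ := hTHR n C F j0 θ δ hE a b
    obtain ⟨-, T2⟩ := hTHR n C F j0 θ δ hE a' b'
    obtain ⟨d, hd, hda, hdb, hD⟩ := T1 hT
    obtain ⟨d', hd', hid⟩ := I1 d hd
    obtain ⟨g, hg, hgx⟩ := (hX d' hd').2.2.2.2.1 1
    have e1 : x (x.symm (⟨g, hg⟩ : EG C F)) = ⟨g, hg⟩ := x.apply_symm_apply _
    have p1 : ∃ t, IsX C d t ((x.symm (⟨g, hg⟩ : EG C F) : EG C F) : Lm C F ≃ₗ[F] Lm C F) :=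
      (hid _).2 (by rw [e1]; exact ⟨1, hgx⟩)
    obtain ⟨h1, h2, q1, q2, q3⟩ := hD _ p1
    have m1 : h1 ∈ GE C F := (hX a ha).2.2.2.2.2.1 h1 q1
    have m2 : h2 ∈ GE C F := (hX b hb).2.2.2.2.2.1 h2 q2
    have e2 : x.symm (⟨g, hg⟩ : EG C F) = (⟨h1, m1⟩ : EG C F) * ⟨h2, m2⟩ := Subtype.ext q3
    have e3 : (⟨g, hg⟩ : EG C F) = x ⟨h1, m1⟩ * x ⟨h2, m2⟩ := by rw [← map_mul, ← e2, e1]
    have r1 := (hia ⟨h1, m1⟩).1 q1
    have r2 := (hib ⟨h2, m2⟩).1 q2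
    rcases T2 hT' d' hd' ⟨g, _, _, hgx, r1, r2, congrArg Subtype.val e3⟩ with hc | hc
    · obtain ⟨c, hc⟩ := key a d a' d' ha hd ha' hd' hia hid hc
      exact hda c hc
    · obtain ⟨c, hc⟩ := key b d b' d' hb hd hb' hd' hib hid hc
      exact hdb c hc
  have : m = 1 := by omega
  rw [this] at hT'
  exact hT'

end Pool.Agent.EXD
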