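import Pool.Agent.helper32.EXD.Spec

/-!
# Row `en:QNF`: the group `Q` modulo `X_θ`

For `q ∈ Q` and a root `γ` with `(γ, θ) = 1` let `κ_γ(q)` be the coefficient of `q E(-θ)` at `γ - θ`. The maps `κ_γ` are additive on `Q`
and `κ_γ(x_γ'(t)) = ± t` if `γ' = γ` and `0` otherwise. For a finite set `T` of vectors let `H_T` be the group generated by `X_θ` and the
`X_γ` with `γ ∈ T`. Then `H_{T ∪ {γ}} = X_γ H_T`, and by induction on `T` every `q ∈ H_T` with all `κ_γ(q) = 0` is in `X_θ`.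
-/

set_option autoImplicit false

open Finset

namespace Pool.Agent.EXD

open Pool.Agent.EXC

section
variable {n : ℕ} {C : Matrix (Fin n) (Fin n) ℤ} [IsC C] {F : Type} [Field F]

theorem QNF_cf {γ : Fin n → ℤ} (hγ : ip C γ γ = 2) (t : F) (v : Lm C F) {β : Fin n → ℤ} (hβ : ip C β β = 2)
    (hne : β ≠ γ) : cf (xe C (E C γ) t v) β = cf v β + t * ((sg C γ (β - γ) : F) * cf v (β - γ)) := by
  unfold xe
  rw [cf_add, cf_add, cf_smul, cf_smul, (br_E C hγ v).2 β hβ, if_neg hne, cf_E C hγ, if_neg hne]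
  ring

/-- no components of degree `≤ -1` -/
def QNF_D0 (C : Matrix (Fin n) (Fin n) ℤ) (F : Type) [Field F] (θ : Fin n → ℤ) (v : Lm C F) : Prop :=
  ∀ β, ip C β β = 2 → ip C β θ ≤ -1 → cf v β = 0

theorem QNF_eq_neg {θ β : Fin n → ℤ} (hθ : ip C θ θ = 2) (hβ : ip C β β = 2) (h : ip C β θ ≤ -2) : β = -θ := by
  have h1 := (ip_abs_le hβ hθ).1
  refine eq_neg_of_ip_eq_neg_two hθ hβ ?_
  rw [ip_comm]
  omega

omit [IsC C] in
theorem QNF_D0_D1 {θ : Fin n → ℤ} (hθ : ip C θ θ = 2) {v : Lm C F} (h : QNF_D0 C F θ v) : cf v (-θ) = 0 := by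
  refine h (-θ) (neg_root C hθ) ?_
  rw [ip_neg_left, hθ]
  norm_num

/-- the properties of the elements of `Q` which are used -/
structure QNF_Good (θ : Fin n → ℤ) (q : Lm C F ≃ₗ[F] Lm C F) : Prop where
  a : ∀ v, QNF_D0 C F θ v → QNF_D0 C F θ (q v)
  b : ∀ v, cf v (-θ) = 0 → QNF_D0 C F θ (q v - v)
  c : cf (q (E C (-θ)) - E C (-θ)) (-θ) = 0

omit [IsC C] in
theorem QNF_Good_one (θ : Fin n → ℤ) : QNF_Good θ (1 : Lm C F ≃ₗ[F] Lm C F) := by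
  refine ⟨fun v hv => hv, fun v _ β _ _ => ?_, ?_⟩
  · have h1 : (1 : Lm C F ≃ₗ[F] Lm C F) v - v = 0 := sub_self v
    rw [h1, cf_zero]
  · have h1 : (1 : Lm C F ≃ₗ[F] Lm C F) (E C (-θ)) - E C (-θ) = 0 := sub_self _
    rw [h1, cf_zero]

omit [IsC C] in
theorem QNF_Good_mul {θ : Fin n → ℤ} (hθ : ip C θ θ = 2) {q q' : Lm C F ≃ₗ[F] Lm C F} (h : QNF_Good θ q)
    (h' : QNF_Good θ q') : QNF_Good θ (q * q') := by
  refine ⟨fun v hv => h.a _ (h'.a _ hv), fun v hv β hβ hd => ?_, ?_⟩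
  · have h1 : (q * q') v - v = q (q' v - v) + (q v - v) := by
      rw [map_sub, LinearEquiv.mul_apply]
      abel
    rw [h1, cf_add, h.a _ (h'.b v hv) β hβ hd, h.b v hv β hβ hd, add_zero]
  · set w := q' (E C (-θ)) - E C (-θ) with hw
    have h1 : (q * q') (E C (-θ)) - E C (-θ) = (q w - w) + w + (q (E C (-θ)) - E C (-θ)) := by
      rw [hw, map_sub, LinearEquiv.mul_apply]
      abel
    rw [h1, cf_add, cf_add, QNF_D0_D1 hθ (h.b w h'.c), h'.c, h.c, add_zero, add_zero]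

theorem QNF_Good_gen {θ γ : Fin n → ℤ} (hθ : ip C θ θ = 2) (hγ : ip C γ γ = 2) (h1 : 1 ≤ ip C γ θ) (t : F)
    {g : Lm C F ≃ₗ[F] Lm C F} (hg : IsX C (E C γ) t g) : QNF_Good θ g := by
  have hne : ∀ β, ip C β θ ≤ -1 → β ≠ γ := by
    rintro β hβ rfl
    omega
  have key : ∀ (v : Lm C F), cf v (-θ) = 0 → ∀ β, ip C β β = 2 → ip C β θ ≤ -1 → cf v (β - γ) = 0 := by
    intro v hv β hβ hd
    by_cases hr : ip C (β - γ) (β - γ) = 2
    · have h2 : β - γ = -θ := by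
        refine QNF_eq_neg hθ hr ?_
        rw [ip_sub_left]
        omega
      rw [h2, hv]
    · exact cf_eq_zero C v hr
  refine ⟨fun v hv β hβ hd => ?_, fun v hv β hβ hd => ?_, ?_⟩
  · rw [hg v, QNF_cf hγ t v hβ (hne β hd), hv β hβ hd, key v (QNF_D0_D1 hθ hv) β hβ hd, mul_zero, mul_zero, add_zero]
  · rw [cf_sub, hg v, QNF_cf hγ t v hβ (hne β hd), key v hv β hβ hd]
    ring
  · have hmθ : ip C (-θ) θ = -2 := by rw [ip_neg_left, hθ]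
    have h2 : cf (E C (-θ) : Lm C F) (-θ - γ) = 0 := by
      by_cases hr : ip C (-θ - γ) (-θ - γ) = 2
      · exfalso
        have h3 := (ip_abs_le hr hθ).1
        rw [ip_sub_left, hmθ] at h3
        omega
      · exact cf_eq_zero C _ hr
    rw [cf_sub, hg, QNF_cf hγ t _ (neg_root C hθ) (hne (-θ) (by rw [hmθ]; norm_num)), h2]
    ring

/-- the coordinate `κ_γ(q)` -/
noncomputable def QNF_k (θ : Fin n → ℤ) (q : Lm C F ≃ₗ[F] Lm C F) (γ : Fin n → ℤ) : F :=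
  cf (q (E C (-θ))) (γ - θ)

omit [IsC C] in
theorem QNF_k_one {θ γ : Fin n → ℤ} (hθ : ip C θ θ = 2) (hγ : ip C γ γ = 2) :
    QNF_k θ (1 : Lm C F ≃ₗ[F] Lm C F) γ = 0 := by
  have h1 : (1 : Lm C F ≃ₗ[F] Lm C F) (E C (-θ)) = E C (-θ) := rfl
  unfold QNF_k
  rw [h1, cf_E C (neg_root C hθ), if_neg]
  intro h
  have h2 : γ = 0 := by
    have h3 := congrArg (fun x => x + θ) h
    simpa using h3
  rw [h2] at hγ
  simp at hγ

theorem QNF_k_mul {θ γ : Fin n → ℤ} (hθ : ip C θ θ = 2) (hγ : ip C γ γ = 2) (h1 : ip C γ θ = 1)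
    {q q' : Lm C F ≃ₗ[F] Lm C F} (h : QNF_Good θ q) (h' : QNF_Good θ q') :
    QNF_k θ (q * q') γ = QNF_k θ q γ + QNF_k θ q' γ := by
  have h0 := QNF_k_one (F := F) hθ hγ
  unfold QNF_k at h0 ⊢
  have h0' : cf (E C (-θ) : Lm C F) (γ - θ) = 0 := h0
  set w := q' (E C (-θ)) - E C (-θ) with hw
  have h2 : (q * q') (E C (-θ)) = (q w - w) + q (E C (-θ)) + (q' (E C (-θ)) - E C (-θ)) := by
    rw [hw, map_sub, LinearEquiv.mul_apply]
    abel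
  have hr : ip C (γ - θ) (γ - θ) = 2 := (sub_root_iff hγ hθ).2 h1
  have hd : ip C (γ - θ) θ ≤ -1 := by
    rw [ip_sub_left, h1, hθ]
    norm_num
  rw [h2, cf_add, cf_add, cf_sub C (q' (E C (-θ))), h.b w h'.c (γ - θ) hr hd, h0']
  ring

theorem QNF_k_gen {θ γ γ' : Fin n → ℤ} (hθ : ip C θ θ = 2) (hγ : ip C γ γ = 2) (h1 : ip C γ θ = 1)
    (hγ' : ip C γ' γ' = 2) (h1' : 1 ≤ ip C γ' θ) (t : F) {g : Lm C F ≃ₗ[F] Lm C F} (hg : IsX C (E C γ') t g) :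
    QNF_k θ g γ = if γ = γ' then t * (sg C γ' (γ - θ - γ') : F) else 0 := by
  have h0 := QNF_k_one (F := F) hθ hγ
  unfold QNF_k at h0 ⊢
  have h0' : cf (E C (-θ) : Lm C F) (γ - θ) = 0 := h0
  have hr : ip C (γ - θ) (γ - θ) = 2 := (sub_root_iff hγ hθ).2 h1
  have hne : γ - θ ≠ γ' := by
    intro h
    have h2 : ip C (γ - θ) θ = -1 := by
      rw [ip_sub_left, h1, hθ]
      norm_num
    rw [h] at h2
    omega
  rw [hg, QNF_cf hγ' t _ hr hne, h0', cf_E C (neg_root C hθ), zero_add]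
  by_cases h : γ = γ'
  · have h2 : γ - θ - γ' = -θ := by
      rw [h]
      abel
    rw [if_pos h2, if_pos h, mul_one]
  · have h2 : γ - θ - γ' ≠ -θ := by
      intro h3
      apply h
      have h4 : γ - θ - γ' + (θ + γ') = -θ + (θ + γ') := by rw [h3]
      have h5 : γ - θ - γ' + (θ + γ') = γ := by abel
      have h6 : -θ + (θ + γ') = γ' := by abel
      rw [h5, h6] at h4
      exact h4
    rw [if_neg h2, if_neg h, mul_zero, mul_zero]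

/-- `IsX a t` determines the linear map -/
theorem QNF_isX_unique {a : Lm C F} {t : F} {g h : Lm C F ≃ₗ[F] Lm C F} (hg : IsX C a t g) (hh : IsX C a t h) : g = h :=
  LinearEquiv.ext fun v => (hg v).trans (hh v).symm

theorem QNF_isX_zero {a : Lm C F} {g : Lm C F ≃ₗ[F] Lm C F} (hg : IsX C a 0 g) : g = 1 := by
  refine LinearEquiv.ext fun v => ?_
  rw [hg v]
  unfold xe
  simp

end

/-- the group generated by `X_θ` and the `X_γ` with `γ ∈ T`, `(γ, θ) ≥ 1` -/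
def QNF_H {n : ℕ} (C : Matrix (Fin n) (Fin n) ℤ) [IsC C] (F : Type) [Field F] (θ : Fin n → ℤ) (T : Finset (Fin n → ℤ)) :
    Subgroup (Lm C F ≃ₗ[F] Lm C F) :=
  Subgroup.closure {g | ∃ γ, ip C γ γ = 2 ∧ (1 ≤ ip C γ θ ∧ (γ ∈ T ∨ γ = θ)) ∧ ∃ t, IsX C (E C γ) t g}

/-- the facts from the rows EXF, ACT, COL -/
structure QNF_Fact {n : ℕ} (C : Matrix (Fin n) (Fin n) ℤ) [IsC C] (F : Type) [Field F] : Prop where
  ex : ∀ γ, ip C γ γ = 2 → ∀ t : F, ∃ h, IsX C (E C γ) t h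
  ad : ∀ γ, ip C γ γ = 2 → ∀ (s t : F) (g h : Lm C F ≃ₗ[F] Lm C F), IsX C (E C γ) s g → IsX C (E C γ) t h →
    IsX C (E C γ) (s + t) (g * h)
  co : ∀ γ γ', ip C γ γ = 2 → ip C γ' γ' = 2 → 0 ≤ ip C γ γ' → ∀ (s t : F) (g h : Lm C F ≃ₗ[F] Lm C F),
    IsX C (E C γ) s g → IsX C (E C γ') t h → g * h = h * g
  cm : ∀ γ γ', ip C γ γ = 2 → ip C γ' γ' = 2 → ip C γ γ' = -1 → ∀ (s t : F) (g h : Lm C F ≃ₗ[F] Lm C F),
    IsX C (E C γ) s g → IsX C (E C γ') t h → ∃ (u : F) (z : Lm C F ≃ₗ[F] Lm C F), IsX C (E C (γ + γ')) u z ∧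
      g * h * g⁻¹ = h * z

theorem QNF_fact (hEXF : EXF_stmt) (hACT : ACT_stmt) (hCOL : COL_stmt) {n : ℕ} (C : Matrix (Fin n) (Fin n) ℤ) [IsC C]
    (F : Type) [Field F] (hβ : ∀ α, ip C α α = 2 → ∃ β, ip C β β = 2 ∧ ip C α β = -1) : QNF_Fact C F := by
  obtain ⟨-, hEx, hE3, -⟩ := hEXF n C F hβ
  have hex : ∀ γ, ip C γ γ = 2 → ∀ t : F, ∃ h ∈ GE C F, IsX C (E C γ) t h := fun γ hγ t =>
    (hE3 (E C γ) (hEx γ hγ)).2.2.2.2.1 t
  have hGE : ∀ γ, ip C γ γ = 2 → ∀ h, (∃ t, IsX C (E C γ) t h) → h ∈ GE C F := fun γ hγ =>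
    (hE3 (E C γ) (hEx γ hγ)).2.2.2.2.2.1
  refine ⟨fun γ hγ t => ?_, fun γ hγ => (hE3 (E C γ) (hEx γ hγ)).2.2.2.2.2.2.2.2, ?_, ?_⟩
  · obtain ⟨h, -, hh⟩ := hex γ hγ t
    exact ⟨h, hh⟩
  · intro γ γ' hγ hγ' h0 s t g h hg hh
    refine LinearEquiv.ext fun v => ?_
    rw [LinearEquiv.mul_apply, LinearEquiv.mul_apply, hg, hh, hh, hg]
    exact (hCOL n C F γ γ' hγ hγ').2 h0 s t v
  · intro γ γ' hγ hγ' h1 s t g h hg hh
    have hgG : g ∈ GE C F := hGE γ hγ g ⟨s, hg⟩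
    have hcon := (hE3 (E C γ') (hEx γ' hγ')).2.2.2.2.2.2.2.1 g hgG t h hh
    have hgE : g (E C γ') = ((1 : F) • E C γ' + (s * (sg C γ γ' : F)) • E C (γ + γ') : Lm C F) := by
      rw [hg, (hACT n C F γ s hγ).2.1 γ' hγ' h1, one_smul]
    have hr : ip C (γ + γ') (γ + γ') = 2 := (add_root_iff hγ hγ').2 h1
    have h2 : ip C γ' (γ + γ') = 1 := by
      rw [ip_add_right, hγ', ip_comm, h1]
      norm_num
    obtain ⟨z, -, hz⟩ := hex (γ + γ') hr (s * (sg C γ γ' : F) * t)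
    refine ⟨_, z, hz, LinearEquiv.ext fun v => ?_⟩
    rw [hcon v, hgE, ((hCOL n C F γ' (γ + γ') hγ' hr).1 h2).1, one_mul, LinearEquiv.mul_apply, hh, hz]

section
variable {n : ℕ} {C : Matrix (Fin n) (Fin n) ℤ} [IsC C] {F : Type} [Field F]

theorem QNF_inv (hF : QNF_Fact C F) {γ : Fin n → ℤ} (hγ : ip C γ γ = 2) {t : F} {g : Lm C F ≃ₗ[F] Lm C F}
    (hg : IsX C (E C γ) t g) : IsX C (E C γ) (-t) g⁻¹ := by
  obtain ⟨h, hh⟩ := hF.ex γ hγ (-t)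
  have h1 := hF.ad γ hγ t (-t) g h hg hh
  rw [add_neg_cancel] at h1
  have h2 := QNF_isX_zero h1
  rw [← eq_inv_of_mul_eq_one_right h2]
  exact hh

/-- induction by left multiplication with generators -/
theorem QNF_ind (hF : QNF_Fact C F) (P : (Fin n → ℤ) → Prop) (p : (Lm C F ≃ₗ[F] Lm C F) → Prop) (h1 : p 1)
    (hm : ∀ γ, ip C γ γ = 2 → P γ → ∀ (t : F) g, IsX C (E C γ) t g → ∀ q, p q → p (g * q)) :
    ∀ q ∈ Subgroup.closure {g : Lm C F ≃ₗ[F] Lm C F | ∃ γ, ip C γ γ = 2 ∧ P γ ∧ ∃ t, IsX C (E C γ) t g}, p q := by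
  intro q hq
  refine Subgroup.closure_induction_left (p := fun q _ => p q) h1 ?_ ?_ hq
  · rintro g ⟨γ, hγ, hP, t, hg⟩ y _ hy
    exact hm γ hγ hP t g hg y hy
  · rintro g ⟨γ, hγ, hP, t, hg⟩ y _ hy
    exact hm γ hγ hP (-t) g⁻¹ (QNF_inv hF hγ hg) y hy

theorem QNF_H_good (hF : QNF_Fact C F) {θ : Fin n → ℤ} (hθ : ip C θ θ = 2) (T : Finset (Fin n → ℤ)) :
    ∀ q ∈ QNF_H C F θ T, QNF_Good θ q :=
  QNF_ind hF (fun γ => 1 ≤ ip C γ θ ∧ (γ ∈ T ∨ γ = θ)) _ (QNF_Good_one θ) fun _ hγ hP t _ hg _ hq =>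
    QNF_Good_mul hθ (QNF_Good_gen hθ hγ hP.1 t hg) hq

/-- `κ_γ` vanishes on `H_T` if `γ ∉ T` -/
theorem QNF_H_k (hF : QNF_Fact C F) {θ : Fin n → ℤ} (hθ : ip C θ θ = 2) (T : Finset (Fin n → ℤ)) {γ : Fin n → ℤ}
    (hγ : ip C γ γ = 2) (h1 : ip C γ θ = 1) (hT : γ ∉ T) : ∀ q ∈ QNF_H C F θ T, QNF_k θ q γ = 0 := by
  have h := QNF_ind hF (fun γ => 1 ≤ ip C γ θ ∧ (γ ∈ T ∨ γ = θ)) (fun q => QNF_Good θ q ∧ QNF_k θ q γ = 0)
    ⟨QNF_Good_one θ, QNF_k_one hθ hγ⟩ ?_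
  · exact fun q hq => (h q hq).2
  · intro γ' hγ' hP t g hg q hq
    have hgg := QNF_Good_gen hθ hγ' hP.1 t hg
    refine ⟨QNF_Good_mul hθ hgg hq.1, ?_⟩
    rw [QNF_k_mul hθ hγ h1 hgg hq.1, QNF_k_gen hθ hγ h1 hγ' hP.1 t hg, hq.2, add_zero, if_neg]
    rintro rfl
    rcases hP.2 with h2 | h2
    · exact hT h2
    · rw [h2, hθ] at h1
      omega

/-- generators of `Q` commute up to `X_θ` -/
theorem QNF_comm (hF : QNF_Fact C F) {θ : Fin n → ℤ} (hθ : ip C θ θ = 2) {γ γ' : Fin n → ℤ} (hγ : ip C γ γ = 2)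
    (hγ' : ip C γ' γ' = 2) (h1 : 1 ≤ ip C γ θ) (h1' : 1 ≤ ip C γ' θ) {s t : F} {g h : Lm C F ≃ₗ[F] Lm C F}
    (hg : IsX C (E C γ) s g) (hh : IsX C (E C γ') t h) :
    ∃ (u : F) (z : Lm C F ≃ₗ[F] Lm C F), IsX C (E C θ) u z ∧ g * h = h * (g * z) := by
  have hb := ip_abs_le hγ hγ'
  by_cases h0 : 0 ≤ ip C γ γ'
  · obtain ⟨z, hz⟩ := hF.ex θ hθ 0
    refine ⟨0, z, hz, ?_⟩
    rw [QNF_isX_zero hz, mul_one]
    exact hF.co γ γ' hγ hγ' h0 s t g h hg hh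
  · by_cases h2 : ip C γ γ' = -2
    · exfalso
      have h3 := eq_neg_of_ip_eq_neg_two hγ hγ' h2
      rw [h3, ip_neg_left] at h1'
      omega
    · have h3 : ip C γ γ' = -1 := by omega
      obtain ⟨u, z, hz, hcon⟩ := hF.cm γ γ' hγ hγ' h3 s t g h hg hh
      have hr : ip C (γ + γ') (γ + γ') = 2 := (add_root_iff hγ hγ').2 h3
      have h4 : γ + γ' = θ := by
        have h5 := (ip_abs_le hr hθ).2
        refine eq_of_ip_eq_two hr hθ ?_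
        rw [ip_add_left] at h5 ⊢
        omega
      rw [h4] at hz
      refine ⟨u, z, hz, ?_⟩
      have h6 : z * g = g * z := hF.co θ γ hθ hγ (by rw [ip_comm]; omega) u s z g hz hg
      rw [← h6, ← mul_assoc, ← hcon]
      group

/-- `H_{T ∪ {γ₀}} = X_γ₀ H_T` -/
theorem QNF_insert (hF : QNF_Fact C F) {θ : Fin n → ℤ} (hθ : ip C θ θ = 2) (T : Finset (Fin n → ℤ)) {γ₀ : Fin n → ℤ}
    (hγ₀ : ip C γ₀ γ₀ = 2) (h₀ : 1 ≤ ip C γ₀ θ) : ∀ q ∈ QNF_H C F θ (insert γ₀ T), ∃ (c : F) (x : Lm C F ≃ₗ[F] Lm C F),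
      IsX C (E C γ₀) c x ∧ ∃ q' ∈ QNF_H C F θ T, q = x * q' := by
  refine QNF_ind hF (fun γ => 1 ≤ ip C γ θ ∧ (γ ∈ insert γ₀ T ∨ γ = θ)) _ ?_ ?_
  · obtain ⟨x, hx⟩ := hF.ex γ₀ hγ₀ 0
    refine ⟨0, x, hx, 1, one_mem _, ?_⟩
    rw [QNF_isX_zero hx, mul_one]
  · rintro γ hγ ⟨h1, hT⟩ t g hg _ ⟨c, x, hx, q', hq', rfl⟩
    by_cases he : γ = γ₀
    · subst he
      exact ⟨t + c, g * x, hF.ad γ hγ t c g x hg hx, q', hq', (mul_assoc _ _ _).symm⟩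
    · have hT' : γ ∈ T ∨ γ = θ := by
        rcases hT with h | h
        · rcases Finset.mem_insert.1 h with h | h
          · exact absurd h he
          · exact Or.inl h
        · exact Or.inr h
      obtain ⟨u, z, hz, hgx⟩ := QNF_comm hF hθ hγ hγ₀ h1 h₀ hg hx
      refine ⟨c, x, hx, g * z * q', ?_, ?_⟩
      · refine mul_mem (mul_mem ?_ ?_) hq'
        · exact Subgroup.subset_closure ⟨γ, hγ, ⟨h1, hT'⟩, t, hg⟩
        · refine Subgroup.subset_closure ⟨θ, hθ, ⟨?_, Or.inr rfl⟩, u, hz⟩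
          rw [hθ]
          norm_num
      · rw [← mul_assoc, hgx, mul_assoc]

theorem QNF_main (hF : QNF_Fact C F) {θ : Fin n → ℤ} (hθ : ip C θ θ = 2) (T : Finset (Fin n → ℤ)) :
    ∀ q ∈ QNF_H C F θ T, (∀ γ, ip C γ γ = 2 → ip C γ θ = 1 → QNF_k θ q γ = 0) → ∃ t, IsX C (E C θ) t q := by
  induction T using Finset.induction_on with
  | empty =>
    intro q hq _
    refine QNF_ind hF (fun γ => 1 ≤ ip C γ θ ∧ (γ ∈ (∅ : Finset (Fin n → ℤ)) ∨ γ = θ))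
      (fun q => ∃ t, IsX C (E C θ) t q) ?_ ?_ q hq
    · obtain ⟨x, hx⟩ := hF.ex θ hθ 0
      refine ⟨0, ?_⟩
      rw [← QNF_isX_zero hx]
      exact hx
    · rintro γ hγ ⟨-, hT⟩ t g hg q ⟨s, hs⟩
      have he : γ = θ := by
        rcases hT with h | h
        · exact absurd h (Finset.notMem_empty _)
        · exact h
      subst he
      exact ⟨t + s, hF.ad γ hγ t s g q hg hs⟩
  | insert γ₀ T hγT ih =>
    intro q hq hk
    by_cases hγ : ip C γ₀ γ₀ = 2 ∧ ip C γ₀ θ = 1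
    · obtain ⟨c, x, hx, q', hq', rfl⟩ := QNF_insert hF hθ T hγ.1 hγ.2.ge q hq
      have hgx := QNF_Good_gen hθ hγ.1 hγ.2.ge c hx
      have hgq := QNF_H_good hF hθ T q' hq'
      have h1 := hk γ₀ hγ.1 hγ.2
      rw [QNF_k_mul hθ hγ.1 hγ.2 hgx hgq, QNF_k_gen hθ hγ.1 hγ.2 hγ.1 hγ.2.ge c hx, if_pos rfl,
        QNF_H_k hF hθ T hγ.1 hγ.2 hγT q' hq', add_zero] at h1
      have hc : c = 0 := (mul_eq_zero.1 h1).resolve_right (sg_ne_zero C _ _)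
      rw [hc] at hx
      rw [QNF_isX_zero hx, one_mul] at hk ⊢
      exact ih q' hq' hk
    · refine ih q ?_ hk
      refine (Subgroup.closure_mono ?_) hq
      rintro g ⟨γ, hγ2, ⟨h1, hT⟩, t, hg⟩
      refine ⟨γ, hγ2, ⟨h1, ?_⟩, t, hg⟩
      rcases hT with h | h
      · rcases Finset.mem_insert.1 h with h | h
        · subst h
          right
          have h3 : ip C γ θ ≠ 1 := fun h4 => hγ ⟨hγ2, h4⟩
          have h4 := (ip_abs_le hγ2 hθ).2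
          exact eq_of_ip_eq_two hγ2 hθ (by omega)
        · exact Or.inl h
      · exact Or.inr h

end

/-- Row `en:QNF`. -/
theorem QNF (hEXF : EXF_stmt) (hACT : ACT_stmt) (hCOL : COL_stmt) (hNBR : NBR_stmt) : QNF_stmt := by
  classical
  intro n C _ F _ j0 θ δ hE q hq hk
  have hF := QNF_fact hEXF hACT hCOL C F (hNBR n C j0 θ δ hE).1
  have hθ := hE.th2
  refine QNF_main hF hθ (Finset.univ.image fun γ : Rt C => γ.1) q ?_ ?_
  · refine (Subgroup.closure_mono ?_) hq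
    rintro g ⟨γ, hγ, h1, t, hg⟩
    exact ⟨γ, hγ, ⟨h1, Or.inl (Finset.mem_image.2 ⟨⟨γ, hγ⟩, Finset.mem_univ _, rfl⟩)⟩, t, hg⟩
  · intro γ hγ h1
    have h2 := hk γ hγ h1
    have hr : ip C (θ - γ) (θ - γ) = 2 := (sub_root_iff hθ hγ).2 (by rw [ip_comm]; exact h1)
    rw [fm_E C hr, neg_sub] at h2
    exact h2

end Pool.Agent.EXD
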