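import Pool.Agent.helper32.EXD.Spec

/-!
# en:SYL (project EXC, MP_561ff4_al): Sylow subgroups fix the highest root vector
-/

set_option autoImplicit false

open Finset

namespace Pool.Agent.EXD

open Pool.Agent.EXC

section
variable {F V : Type} [Field F] [AddCommGroup V] [Module F V]

/-- the points spanned by the vectors with the property `X` -/
def SYL_Pt (X : V → Prop) : Type := {W : Submodule F V // ∃ a, X a ∧ W = Submodule.span F {a}}

/-- the action on the points -/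
def SYL_act (G : Subgroup (V ≃ₗ[F] V)) (X : V → Prop) (hX : ∀ g ∈ G, ∀ a, X a → X (g a)) (K : Subgroup G) :
    MulAction K (SYL_Pt (F := F) X) where
  smul g W := ⟨W.1.map (((g : G) : V ≃ₗ[F] V) : V →ₗ[F] V), by
    obtain ⟨a, ha, hW⟩ := W.2
    refine ⟨((g : G) : V ≃ₗ[F] V) a, hX _ (g : G).2 a ha, ?_⟩
    rw [hW, Submodule.map_span, Set.image_singleton]
    rfl⟩
  one_smul W := Subtype.ext (Submodule.map_id W.1)
  mul_smul g h W := Subtype.ext (by
    show W.1.map _ = (W.1.map _).map _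
    rw [← Submodule.map_comp]
    rfl)

theorem SYL_core [Finite V] {p : ℕ} [Fact p.Prime] [CharP F p] (G : Subgroup (V ≃ₗ[F] V)) (X : V → Prop)
    (hX0 : ∀ a, X a → a ≠ 0) (hX : ∀ g ∈ G, ∀ a, X a → X (g a)) (U P : Subgroup G)
    (hU : IsPGroup p U) (hP : IsPGroup p P) (hUP : U ≤ P) (e : V) (he : X e)
    (hue : ∀ u ∈ U, ((u : G) : V ≃ₗ[F] V) e = e)
    (huniq : ∀ a, X a → (∀ u ∈ U, ∃ κ : F, ((u : G) : V ≃ₗ[F] V) a = κ • a) → ∃ c : F, a = c • e) :
    ∀ g ∈ P, ((g : G) : V ≃ₗ[F] V) e = e := by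
  haveI : Finite (Submodule F V) := Finite.of_injective (fun W => (W : Set V)) SetLike.coe_injective
  haveI : Finite (SYL_Pt (F := F) X) := inferInstanceAs (Finite {W : Submodule F V // _})
  letI a1 := SYL_act G X hX U
  letI a2 := SYL_act G X hX P
  have hfix : ∀ (g : G) (a : V), Submodule.span F {a} = (Submodule.span F {a}).map
      ((g : V ≃ₗ[F] V) : V →ₗ[F] V) → ∃ κ : F, (g : V ≃ₗ[F] V) a = κ • a := by
    intro g a h
    have h1 : (g : V ≃ₗ[F] V) a ∈ Submodule.span F {a} := by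
      rw [h]
      exact Submodule.mem_map.2 ⟨a, Submodule.mem_span_singleton_self a, rfl⟩
    obtain ⟨κ, hκ⟩ := Submodule.mem_span_singleton.1 h1
    exact ⟨κ, hκ.symm⟩
  have huniq' : ∀ W : SYL_Pt (F := F) X, (∀ u : U, W.1 = W.1.map (((u : G) : V ≃ₗ[F] V) : V →ₗ[F] V)) →
      W.1 = Submodule.span F {e} ∧ ∃ a, X a ∧ W.1 = Submodule.span F {a} ∧ ∃ c : F, c ≠ 0 ∧ a = c • e := by
    intro W hW
    obtain ⟨a, ha, hWa⟩ := W.2
    obtain ⟨c, hc⟩ := huniq a ha (fun u hu => hfix u a (by have := hW ⟨u, hu⟩; rw [hWa] at this; exact this))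
    have hc0 : c ≠ 0 := by
      rintro rfl
      exact hX0 a ha (by rw [hc, zero_smul])
    refine ⟨?_, a, ha, hWa, c, hc0, hc⟩
    rw [hWa, hc]
    exact Submodule.span_singleton_smul_eq (IsUnit.mk0 c hc0) e
  set W0 : SYL_Pt (F := F) X := ⟨Submodule.span F {e}, e, he, rfl⟩ with hW0
  have hone : Nat.card (MulAction.fixedPoints U (SYL_Pt (F := F) X)) = 1 := by
    rw [Nat.card_eq_one_iff_unique]
    constructor
    · constructor
      rintro ⟨W, hW⟩ ⟨W', hW'⟩
      have h1 := (huniq' W fun u => (congrArg Subtype.val (hW u)).symm).1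
      have h2 := (huniq' W' fun u => (congrArg Subtype.val (hW' u)).symm).1
      exact Subtype.ext (Subtype.ext (h1.trans h2.symm))
    · refine ⟨W0, fun u => Subtype.ext ?_⟩
      show (Submodule.span F {e}).map _ = Submodule.span F {e}
      rw [Submodule.map_span, Set.image_singleton]
      have h1 := hue u u.2
      exact congrArg (fun x => Submodule.span F {x}) h1
  have hmod1 := hU.card_modEq_card_fixedPoints (SYL_Pt (F := F) X)
  have hmod2 := hP.card_modEq_card_fixedPoints (SYL_Pt (F := F) X)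
  rw [hone] at hmod1
  have hmod3 := hmod2.symm.trans hmod1
  have hne : Nat.card (MulAction.fixedPoints P (SYL_Pt (F := F) X)) ≠ 0 := by
    intro h0
    rw [h0] at hmod3
    have h1 := (Nat.modEq_iff_dvd' (Nat.zero_le 1)).1 hmod3
    have h2 : 1 < p := (Fact.out : p.Prime).one_lt
    exact absurd (Nat.le_of_dvd (by norm_num) h1) (by omega)
  obtain ⟨⟨W, hW⟩⟩ : Nonempty (MulAction.fixedPoints P (SYL_Pt (F := F) X)) := by
    by_contra hemp
    rw [not_nonempty_iff] at hemp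
    exact hne Nat.card_of_isEmpty
  obtain ⟨-, a, ha, hWa, c, hc0, hc⟩ := huniq' W fun u =>
    (congrArg Subtype.val (hW ⟨u, hUP u.2⟩)).symm
  intro g hg
  obtain ⟨κ, hκ⟩ := hfix g a (by
    have := (congrArg Subtype.val (hW ⟨g, hg⟩)).symm
    rw [← hWa]
    exact this)
  have hge : (g : V ≃ₗ[F] V) e = κ • e := by
    rw [hc, map_smul, smul_comm] at hκ
    exact smul_right_injective V hc0 hκ
  obtain ⟨k, hk⟩ := hP ⟨g, hg⟩
  have hpow : ∀ m : ℕ, ((g : V ≃ₗ[F] V) ^ m) e = κ ^ m • e := by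
    intro m
    induction m with
    | zero => simp
    | succ m ih =>
      rw [pow_succ, LinearEquiv.mul_apply, hge, map_smul, ih, smul_smul, pow_succ, mul_comm]
  have hk2 : (g : V ≃ₗ[F] V) ^ (p ^ k) = 1 := by
    have h1 := congrArg (fun x : P => (((x : G) : V ≃ₗ[F] V))) hk
    simpa using h1
  have h3 := hpow (p ^ k)
  rw [hk2] at h3
  have h4 : (κ ^ (p ^ k) - 1) • e = 0 := by
    rw [sub_smul, ← h3, one_smul]
    simp
  rcases smul_eq_zero.1 h4 with h5 | h5
  · have h6 : (κ - 1) ^ (p ^ k) = 0 := by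
      rw [sub_pow_char_pow, one_pow]
      exact h5
    have h7 : κ - 1 = 0 := pow_eq_zero_iff (pow_ne_zero k (Fact.out : p.Prime).ne_zero) |>.1 h6
    have h8 : κ = 1 := sub_eq_zero.1 h7
    rw [hge, h8, one_smul]
  · exact absurd h5 (hX0 e he)

end

theorem SYL (hEXF : EXF_stmt) (hFPU : FPU_stmt) (hUPG : UPG_stmt) (hNBR : NBR_stmt) : SYL_stmt := by
  intro n C _ F _ _ j0 θ δ hE p hp hch P hP hUP
  haveI : Fact p.Prime := ⟨hp⟩
  haveI := hch
  obtain ⟨hb, -⟩ := hNBR n C j0 θ δ hE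
  obtain ⟨-, hEx, hEa, -⟩ := hEXF n C F hb
  obtain ⟨f1, f2⟩ := hFPU n C F j0 θ δ hE
  have hle : UG C F ≤ GE C F := by
    apply (Subgroup.closure_le _).2
    rintro g ⟨γ, h2, -, t, ht⟩
    exact Subgroup.subset_closure ⟨γ, h2, t, ht⟩
  apply SYL_core (p := p) (GE C F) (Ex C) (fun a ha => (hEa a ha).2.1)
    (fun g hg a ha => (hEa a ha).2.2.1 g hg) ((UG C F).subgroupOf (GE C F)) P ?_ hP
    (fun g hg => hUP g (Subgroup.mem_subgroupOf.1 hg)) (E C θ) (hEx θ hE.th2)
    (fun u hu => f1 _ (Subgroup.mem_subgroupOf.1 hu)) ?_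
  · rintro ⟨u, hu⟩
    obtain ⟨k, hk⟩ := hUPG n C F p hp hch _ (Subgroup.mem_subgroupOf.1 hu)
    exact ⟨k, Subtype.ext (Subtype.ext hk)⟩
  · intro a ha h
    exact f2 a ha (fun u hu => h ⟨u, hle hu⟩ (Subgroup.mem_subgroupOf.2 hu))

end Pool.Agent.EXD
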