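import Pool.Agent.helper32.EXD.Spec

set_option autoImplicit false

open Finset

namespace Pool.Agent.EXD

open Pool.Agent.EXC

variable {n : ℕ} (C : Matrix (Fin n) (Fin n) ℤ) {F : Type} [Field F] [IsC C]

theorem THR_smulX (a : Lm C F) (c t : F) (h : Lm C F ≃ₗ[F] Lm C F) : IsX C (c • a) t h ↔ IsX C a (c * t) h := by
  unfold IsX
  refine forall_congr' fun v => ?_
  have : xe C (c • a) t v = xe C a (c * t) v := by
    unfold xe
    rw [br_smul_left, fm_smul_left, smul_smul, smul_smul, mul_comm t c]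
    congr 2
    ring
  rw [this]

/-- the coefficient at `γ` of `x_d(1) E(-θ)` -/
theorem THR_cf (d : Lm C F) {γ θ : Fin n → ℤ} (hθ : ip C θ θ = 2) (hγ : ip C γ γ = 2) (h1 : ip C θ γ ≠ -2)
    (h2 : ip C θ γ ≠ -1) : cf (xe C d 1 (E C (-θ))) γ = cf d θ * cf d γ := by
  have hnθ := neg_root C hθ
  have hγθ : γ ≠ -θ := by
    rintro rfl
    rw [ip_neg_right, hθ] at h1
    exact h1 rfl
  have hfm : fm C d (E C (-θ)) = cf d θ := by
    rw [fm, Finset.sum_eq_single (⟨θ, hθ⟩ : Rt C)]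
    · rw [cf_E C hnθ]
      simp [cf, hθ]
    · intro b _ hb
      have : -b.1 ≠ -θ := fun e => hb (Subtype.ext (neg_injective e))
      rw [cf_E C hnθ, if_neg this, mul_zero]
    · simp
  have hbr : cf (br C d (E C (-θ))) γ = 0 := by
    rw [br_cf C _ _ hγ, cf_E C hnθ, if_neg hγθ]
    have : ∑ α : Rt C, (sg C α.1 (γ - α.1) : F) * d.2 α * cf (E C (-θ) : Lm C F) (γ - α.1) = 0 := by
      refine Finset.sum_eq_zero fun α _ => ?_
      rw [cf_E C hnθ]
      have : γ - α.1 ≠ -θ := by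
        intro e
        have e2 : α.1 = θ + γ := by
          have : α.1 = γ + θ := by
            rw [sub_eq_iff_eq_add] at e
            rw [e]; abel
          rw [this, add_comm]
        have e3 := α.2
        rw [e2, add_root_iff hθ hγ] at e3
        exact h2 e3
      rw [if_neg this, mul_zero]
    rw [this]
    simp
  rw [xe, cf_add, cf_add, cf_smul, cf_smul, hbr, hfm, cf_E C hnθ, if_neg hγθ]
  ring

theorem THR (hEXF : EXF_stmt) (hPCL : PCL_stmt) (hUNQ : UNQ_stmt) (hACT : ACT_stmt) (hCOL : COL_stmt) (hTPF : TPF_stmt)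
    (hNBR : NBR_stmt) : THR_stmt := by
  intro n C _ F _ j0 θ δ hE a b
  have hth := hE.th2
  have hnb := (hNBR n C j0 θ δ hE).1
  obtain ⟨-, hExE, hEx, -⟩ := hEXF n C F hnb
  have hU := hUNQ n C F j0 θ δ hE
  constructor
  · intro hT
    obtain ⟨ha, hb, -⟩ := hTPF n C F θ hth hnb a b 1 hT
    obtain ⟨k, hk, β, hβ, hθβ, c, c', hc, hc', hka, hkb⟩ := hT
    have hki : k⁻¹ ∈ GE C F := inv_mem hk
    -- the third point
    have hr : ip C (θ - β) (θ - β) = 2 := (sub_root_iff hth hβ).2 hθβ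
    have hr2 : ip C (θ - β) β = -1 := by rw [ip_sub_left, hθβ, hβ]; norm_num
    obtain ⟨g, hg, hg1⟩ := (hEx _ (hExE _ hr)).2.2.2.2.1 1
    set σ : F := (sg C (θ - β) β : F) with hσ
    have hσ0 : σ ≠ 0 := sg_ne_zero C _ _
    have hd1 : g (E C β) = (σ • E C θ + (1 : F) • E C β : Lm C F) := by
      rw [hg1, ((hACT n C F (θ - β) 1 hr).2.1 β hβ hr2), sub_add_cancel, one_mul, one_smul, add_comm]
    set d1 : Lm C F := σ • E C θ + (1 : F) • E C β with hd1'
    have hexd1 : Ex C d1 := by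
      rw [← hd1]
      exact (hEx _ (hExE β hβ)).2.2.1 g hg
    have hβθ : β ≠ θ := by
      rintro rfl
      rw [hβ] at hθβ
      norm_num at hθβ
    have hcβ : cf d1 β = 1 := by
      rw [hd1', cf_add, cf_smul, cf_smul, cf_E C hth, cf_E C hβ, if_neg hβθ]
      simp
    have hcθ : cf d1 θ = σ := by
      rw [hd1', cf_add, cf_smul, cf_smul, cf_E C hth, cf_E C hβ, if_neg hβθ.symm]
      simp
    have hkk : ∀ v, k (k⁻¹ v) = v := fun v => by
      rw [← LinearEquiv.mul_apply, mul_inv_cancel, LinearEquiv.coe_one, id]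
    refine ⟨k⁻¹ d1, (hEx _ hexd1).2.2.1 _ hki, ?_, ?_, ?_⟩
    · intro e he
      have h1 := congrArg k he
      rw [hkk, map_smul, hka] at h1
      have h2 := hcβ
      rw [h1, cf_smul, cf_smul, cf_E C hth, if_neg hβθ] at h2
      simp at h2
    · intro e he
      have h1 := congrArg k he
      rw [hkk, map_smul, hkb] at h1
      have h2 := hcθ
      rw [h1, cf_smul, cf_smul, cf_E C hβ, if_neg hβθ.symm] at h2
      simp at h2
      exact hσ0 h2.symm
    · rintro h ⟨t, ht⟩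
      obtain ⟨h1, -, hh1⟩ := (hEx a ha).2.2.2.2.1 (c⁻¹ * (σ * t))
      obtain ⟨h2, -, hh2⟩ := (hEx b hb).2.2.2.2.1 (c'⁻¹ * (1 * t))
      refine ⟨h1, h2, ⟨_, hh1⟩, ⟨_, hh2⟩, ?_⟩
      have e := (hEx _ ((hEx _ hexd1).2.2.1 _ hki)).2.2.2.2.2.2.2.1 k hk t h ht
      rw [hkk] at e
      have e1 := (hEx a ha).2.2.2.2.2.2.2.1 k hk _ h1 hh1
      rw [hka, THR_smulX, mul_inv_cancel_left₀ hc] at e1
      have e2 := (hEx b hb).2.2.2.2.2.2.2.1 k hk _ h2 hh2
      rw [hkb, THR_smulX, mul_inv_cancel_left₀ hc'] at e2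
      have e3 : k * h * k⁻¹ = (k * h1 * k⁻¹) * (k * h2 * k⁻¹) := by
        apply LinearEquiv.ext
        intro v
        rw [e v, LinearEquiv.mul_apply, e2 v, e1, hd1', ((hCOL n C F θ β hth hβ).1 hθβ).1]
      have e4 : k * h * k⁻¹ = k * (h1 * h2) * k⁻¹ := by rw [e3]; group
      exact mul_left_cancel (mul_right_cancel e4)
  · intro hT d hd hh
    obtain ⟨ha, hb, -⟩ := hTPF n C F θ hth hnb a b 0 hT
    obtain ⟨k, hk, β, hβ, hθβ, c, c', hc, hc', hka, hkb⟩ := hT
    obtain ⟨h, h1, h2, hdh, ⟨s1, hs1⟩, ⟨s2, hs2⟩, rfl⟩ := hh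
    by_cases hs10 : s1 = 0
    · right
      have e1 : h1 = 1 := by
        apply LinearEquiv.ext
        intro v
        rw [hs1 v, hs10]
        simp [xe]
      rw [e1, one_mul] at hdh
      exact ⟨s2, hU d b s2 h2 hd hb hdh hs2⟩
    by_cases hs20 : s2 = 0
    · left
      have e1 : h2 = 1 := by
        apply LinearEquiv.ext
        intro v
        rw [hs2 v, hs20]
        simp [xe]
      rw [e1, mul_one] at hdh
      exact ⟨s1, hU d a s1 h1 hd ha hdh hs1⟩
    exfalso
    have e := (hEx d hd).2.2.2.2.2.2.2.1 k hk 1 _ hdh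
    have e1 := (hEx a ha).2.2.2.2.2.2.2.1 k hk _ h1 hs1
    rw [hka, THR_smulX] at e1
    have e2 := (hEx b hb).2.2.2.2.2.2.2.1 k hk _ h2 hs2
    rw [hkb, THR_smulX] at e2
    have hs : c * s1 ≠ 0 := mul_ne_zero hc hs10
    have hts : c' * s2 ≠ 0 := mul_ne_zero hc' hs20
    set s := c * s1
    set t := c' * s2
    have key : ∀ v, xe C (k d) 1 v = xe C (E C θ) s (xe C (E C β) t v) := by
      intro v
      rw [← e v, ← e2 v, ← e1, ← LinearEquiv.mul_apply]
      congr 1
      group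
    have hβθ : ip C β θ = 0 := by rw [ip_comm, hθβ]
    have hne : β ≠ θ := by
      rintro rfl
      rw [hβ] at hθβ
      norm_num at hθβ
    have hnn : θ ≠ -θ := by
      intro h
      have h3 := congrArg (ip C θ) h
      rw [ip_neg_right, hth] at h3
      norm_num at h3
    have hnn' : β ≠ -β := by
      intro h
      have h3 := congrArg (ip C β) h
      rw [ip_neg_right, hβ] at h3
      norm_num at h3
    have hnn2 : β ≠ -θ := by
      rintro rfl
      rw [ip_neg_right, hth] at hθβ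
      norm_num at hθβ
    have k1 : xe C (k d) 1 (E C (-θ)) = (E C (-θ) - s • ht C θ + s ^ 2 • E C θ : Lm C F) := by
      rw [key, (hACT n C F β t hβ).1 (-θ) (neg_root C hth) (by rw [ip_neg_right, hβθ]; norm_num),
        (hACT n C F θ s hth).2.2.1]
    have k2 : xe C (k d) 1 (E C (-β)) = (E C (-β) - t • ht C β + t ^ 2 • E C β : Lm C F) := by
      rw [key, (hCOL n C F θ β hth hβ).2 (by rw [hθβ]) s t,
        (hACT n C F θ s hth).1 (-β) (neg_root C hβ) (by rw [ip_neg_right, hθβ]; norm_num), (hACT n C F β t hβ).2.2.1]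
    have q1 := THR_cf C (k d) hth hth (by rw [hth]; norm_num) (by rw [hth]; norm_num)
    rw [k1, cf_add, cf_sub, cf_smul, cf_smul, cf_ht, cf_E C hth, cf_E C (neg_root C hth), if_neg hnn, if_pos rfl] at q1
    have q2 := THR_cf C (k d) hth hβ (by rw [hθβ]; norm_num) (by rw [hθβ]; norm_num)
    rw [k1, cf_add, cf_sub, cf_smul, cf_smul, cf_ht, cf_E C hth, cf_E C (neg_root C hth), if_neg hnn2, if_neg hne] at q2
    have q3 := THR_cf C (k d) hβ hβ (by rw [hβ]; norm_num) (by rw [hβ]; norm_num)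
    rw [k2, cf_add, cf_sub, cf_smul, cf_smul, cf_ht, cf_E C hβ, cf_E C (neg_root C hβ), if_neg hnn', if_pos rfl] at q3
    have r1 : cf (k d) θ ≠ 0 := by
      intro h0
      rw [h0] at q1
      simp at q1
      exact hs q1
    have r3 : cf (k d) β ≠ 0 := by
      intro h0
      rw [h0] at q3
      simp at q3
      exact hts q3
    simp only [mul_zero, sub_zero, add_zero] at q2
    exact (mul_ne_zero r1 r3) q2.symm

end Pool.Agent.EXD
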