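import Pool.Agent.helper32.EXD.Spec

set_option autoImplicit false

open Finset

namespace Pool.Agent.EXD

open Pool.Agent.EXC

theorem UNQ_smul {n : ℕ} (C : Matrix (Fin n) (Fin n) ℤ) [IsC C] {F : Type} [Field F] (c t : F) (a v : Lm C F) :
    xe C (c • a) t v = xe C a (c * t) v := by
  unfold xe
  rw [br_smul_left, fm_smul_left, smul_smul, smul_smul]
  have e1 : t * c = c * t := mul_comm _ _
  have e2 : t ^ 2 * (c * fm C a v) * c = (c * t) ^ 2 * fm C a v := by ring
  rw [e1, e2]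

theorem UNQ (hEXF : EXF_stmt) (hPCL : PCL_stmt) (hACT : ACT_stmt) (hNBR : NBR_stmt) : UNQ_stmt := by
  intro n C _ F _ j0 θ δ hE a b t h ha hb hah hbh
  obtain ⟨m, _, _, k, hk, β, hβ, _, c, c', hc, hc', hka, hkb⟩ := hPCL n C F j0 θ δ hE a b ha hb
  have hθ : ip C θ θ = 2 := hE.th2
  obtain ⟨hnb, _⟩ := hNBR n C j0 θ δ hE
  obtain ⟨_, hEx, hF, _⟩ := hEXF n C F hnb
  have h1 := (hF a ha).2.2.2.2.2.2.2.1 k hk 1 h hah
  have h2 := (hF b hb).2.2.2.2.2.2.2.1 k hk t h hbh
  rw [hka] at h1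
  rw [hkb] at h2
  have h1' : IsX C (E C θ) c (k * h * k⁻¹) := by
    intro v
    rw [h1 v, UNQ_smul, mul_one]
  have h2' : IsX C (E C β) (c' * t) (k * h * k⁻¹) := by
    intro v
    rw [h2 v, UNQ_smul]
  have hne : θ ≠ -θ := by
    intro e
    have h3 : ip C θ θ = ip C θ (-θ) := congrArg (ip C θ) e
    rw [ip_neg_right, hθ] at h3
    omega
  have key : xe C (E C θ) c (E C (-θ)) = xe C (E C β) (c' * t) (E C (-θ)) := by
    rw [← h1' (E C (-θ)), ← h2' (E C (-θ))]
  have hβθ : β = θ := by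
    by_contra hbt
    obtain ⟨_, _, hA3, _, _⟩ := hACT n C F θ c hθ
    obtain ⟨hB1, hB2, _, _, _⟩ := hACT n C F β (c' * t) hβ
    have hnθ : ip C (-θ) (-θ) = 2 := neg_root C hθ
    have hcf : cf (xe C (E C θ) c (E C (-θ)) : Lm C F) θ = c ^ 2 := by
      rw [hA3, cf_add, cf_sub, cf_smul, cf_smul, cf_ht, cf_E C hnθ, cf_E C hθ, if_neg hne, if_pos rfl]
      ring
    have hb1 := ip_abs_le (C := C) hβ hnθ
    have hb2 : ip C β (-θ) ≠ -2 := by
      intro e
      rw [ip_neg_right] at e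
      exact hbt (eq_of_ip_eq_two hβ hθ (by omega))
    have hzero : cf (xe C (E C β) (c' * t) (E C (-θ)) : Lm C F) θ = 0 := by
      rcases (by omega : 0 ≤ ip C β (-θ) ∨ ip C β (-θ) = -1) with h0 | h0
      · rw [hB1 _ hnθ h0, cf_E C hnθ, if_neg hne]
      · rw [hB2 _ hnθ h0, cf_add, cf_smul, cf_E C hnθ, if_neg hne]
        have hr : ip C (β + -θ) (β + -θ) = 2 := (add_root_iff hβ hnθ).2 h0
        have hn2 : θ ≠ β + -θ := by
          intro e
          have h3 : ip C θ θ = ip C θ (β + -θ) := congrArg (ip C θ) e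
          rw [ip_add_right, ip_neg_right, hθ, ip_comm C θ β] at h3
          rw [ip_neg_right] at h0
          omega
        rw [cf_E C hr, if_neg hn2]
        ring
    rw [key, hzero] at hcf
    exact hc (pow_eq_zero_iff (two_ne_zero) |>.1 hcf.symm)
  subst hβθ
  have hcc : c = c' * t := (hF _ (hEx β hβ)).2.2.2.2.2.2.1 c (c' * t) _ h1' h2'
  have hfin : k a = k (t • b) := by
    rw [map_smul, hka, hkb, smul_smul, hcc, mul_comm]
  exact k.injective hfin

end Pool.Agent.EXD
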