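import Pool.Agent.helper32.EXD.NBR
import Pool.Agent.helper32.EXD.TSY
import Pool.Agent.helper32.EXD.PCL
import Pool.Agent.helper32.EXD.UNQ
import Pool.Agent.helper32.EXD.THR
import Pool.Agent.helper32.EXD.IMX
import Pool.Agent.helper32.EXD.IMT
import Pool.Agent.helper32.EXD.FIX
import Pool.Agent.helper32.EXD.GEO
import Pool.Agent.helper32.EXD.DMN
import Pool.Agent.helper32.EXD.FPU
import Pool.Agent.helper32.EXD.SYL
import Pool.Agent.helper32.EXD.GMN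
import Pool.Agent.helper32.EXD.CUB
import Pool.Agent.helper32.EXD.QUN
import Pool.Agent.helper32.EXD.QNF
import Pool.Agent.helper32.EXD.CUX
import Pool.Agent.helper32.EXD.ARA

/-!
# Project EXD (MP_561ff4_al): all rows
-/

set_option autoImplicit false

open Finset

namespace Pool.Agent.EXD

open Pool.Agent.EXC

theorem f_NBR : NBR_stmt := NBR f_RFL f_DOM
theorem f_TSY : TSY_stmt := TSY f_NBR f_WPG f_RFL
theorem f_PCL : PCL_stmt := PCL f_EXF f_ACT f_YST f_NBR f_WPG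
theorem f_UNQ : UNQ_stmt := UNQ f_EXF f_PCL f_ACT f_NBR
theorem f_THR : THR_stmt := THR f_EXF f_PCL f_UNQ f_ACT f_COL f_TPF f_NBR
theorem f_IMX : IMX_stmt := IMX f_EXF f_UNQ f_NBR
theorem f_IMT : IMT_stmt := IMT f_PCL f_TPF f_THR f_IMX f_EXF f_NBR f_UNQ
theorem f_FIX : FIX_stmt := FIX f_EXF f_UNQ f_NRM f_NBR
theorem f_GEO : GEO_stmt := GEO f_PCL f_TPF f_IMX f_IMT f_WUQ f_FIX f_UNQ f_ACT f_EXF f_NBR
theorem f_DMN : DMN_stmt := DMN f_DIC
theorem f_FPU : FPU_stmt := FPU f_EXF f_YST f_ACT f_DMN f_NBR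
theorem f_SYL : SYL_stmt := SYL f_EXF f_FPU f_UPG f_NBR
theorem f_GMN : GMN_stmt := GMN f_EXF f_DMN f_DIC f_NBR
theorem f_CUB : CUB_stmt := CUB f_EXF f_UNQ f_YST f_FPU f_DMN f_NBR
theorem f_QUN : QUN_stmt := QUN f_EXF f_ACT f_COL f_DMN f_NBR
theorem f_QNF : QNF_stmt := QNF f_EXF f_ACT f_COL f_NBR
theorem f_CUX : CUX_stmt := CUX f_CUB f_QUN f_QNF f_GMN f_EXF f_ACT f_DMN f_NBR
theorem f_ARA : ARA_stmt := ARA f_UPG f_SYL f_CUX f_EXF f_DMN f_NBR f_WPG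

end Pool.Agent.EXD
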