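import Pool.Agent.helper17.EXC.Facts

/-!
# Project EXD (MP_561ff4_al): the geometry of project EXC without the subsystem of type `A₅`

Copy of the rows of `Pool/Agent/helper17/EXC/Spec.lean` and `SpecRA.lean` with the weaker hypothesis `IsD` (any connected simply laced diagram such that the
highest root `θ` is adjacent to one node), which holds also for the diagram `D₄`. The index `δ` is a dummy (it is kept so that the proofs can be copied).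
-/

set_option autoImplicit false

open Finset

namespace Pool.Agent.EXD

open Pool.Agent.EXC

/-- `θ` is a root with `(θ, α_i) = 0` except for one node `j0` with `(θ, α_j0) = 1`; the diagram is connected and has at least one edge -/
structure IsD {n : ℕ} (C : Matrix (Fin n) (Fin n) ℤ) (j0 : Fin n) (θ : Fin n → ℤ) (δ : Fin 5 → Fin n) : Prop where
  th2 : ip C θ θ = 2
  thd : ∀ i, ip C θ (sr i) = if i = j0 then 1 else 0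
  con : Conn C Finset.univ
  ed : ∃ i j, C i j = -1
  dm : δ = δ

/-- **NBR** -/
def NBR_stmt : Prop := ∀ (n : ℕ) (C : Matrix (Fin n) (Fin n) ℤ) [IsC C] (j0 : Fin n) (θ : Fin n → ℤ) (δ : Fin 5 → Fin n), IsD C j0 θ δ →
  (∀ α, ip C α α = 2 → ∃ β, ip C β β = 2 ∧ ip C α β = -1) ∧
  ∀ α α' β, ip C α α = 2 → ip C α' α' = 2 → ip C β β = 2 → ∃ β', ip C β' β' = 2 ∧ WP C (α, β) (α', β')

/-- **TSY** -/
def TSY_stmt : Prop := ∀ (n : ℕ) (C : Matrix (Fin n) (Fin n) ℤ) [IsC C] (F : Type) [Field F] (j0 : Fin n) (θ : Fin n → ℤ) (δ : Fin 5 → Fin n),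
  IsD C j0 θ δ → ∀ (a b : Lm C F) (m : ℤ), Tp C θ a b m → Tp C θ b a m

/-- **PCL** -/
def PCL_stmt : Prop := ∀ (n : ℕ) (C : Matrix (Fin n) (Fin n) ℤ) [IsC C] (F : Type) [Field F] (j0 : Fin n) (θ : Fin n → ℤ) (δ : Fin 5 → Fin n),
  IsD C j0 θ δ → ∀ a b : Lm C F, Ex C a → Ex C b → ∃ m, -2 ≤ m ∧ m ≤ 2 ∧ Tp C θ a b m

/-- **UNQ** -/
def UNQ_stmt : Prop := ∀ (n : ℕ) (C : Matrix (Fin n) (Fin n) ℤ) [IsC C] (F : Type) [Field F] (j0 : Fin n) (θ : Fin n → ℤ) (δ : Fin 5 → Fin n),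
  IsD C j0 θ δ → ∀ (a b : Lm C F) (t : F) (h : Lm C F ≃ₗ[F] Lm C F), Ex C a → Ex C b → IsX C a 1 h → IsX C b t h → a = t • b

/-- **THR** -/
def THR_stmt : Prop := ∀ (n : ℕ) (C : Matrix (Fin n) (Fin n) ℤ) [IsC C] (F : Type) [Field F] (j0 : Fin n) (θ : Fin n → ℤ) (δ : Fin 5 → Fin n),
  IsD C j0 θ δ → ∀ a b : Lm C F,
  (Tp C θ a b 1 → ∃ d, Ex C d ∧ (∀ c : F, d ≠ c • a) ∧ (∀ c : F, d ≠ c • b) ∧ ∀ h, (∃ t, IsX C d t h) →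
    ∃ h1 h2, (∃ t, IsX C a t h1) ∧ (∃ t, IsX C b t h2) ∧ h = h1 * h2) ∧
  (Tp C θ a b 0 → ∀ d, Ex C d → (∃ h h1 h2, IsX C d 1 h ∧ (∃ t, IsX C a t h1) ∧ (∃ t, IsX C b t h2) ∧ h = h1 * h2) →
    (∃ c : F, d = c • a) ∨ ∃ c : F, d = c • b)

/-- **IMX** -/
def IMX_stmt : Prop := ∀ (n : ℕ) (C : Matrix (Fin n) (Fin n) ℤ) [IsC C] (F : Type) [Field F] (j0 : Fin n) (θ : Fin n → ℤ) (δ : Fin 5 → Fin n),
  IsD C j0 θ δ → ∀ x : MulAut (EG C F), RA C x → (∀ a, Ex C a → ∃ b, Ex C b ∧ Im C x a b) ∧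
  (∀ a a' b, Ex C a → Ex C a' → Ex C b → Im C x a b → Im C x a' b → ∃ c : F, c ≠ 0 ∧ a' = c • a) ∧
  (∀ a b b', Ex C a → Ex C b → Ex C b' → Im C x a b → Im C x a b' → ∃ c : F, c ≠ 0 ∧ b' = c • b) ∧
  ∀ (a b : Lm C F) (c c' : F), Ex C a → Ex C b → c ≠ 0 → c' ≠ 0 → Im C x a b → Im C x (c • a) (c' • b)

/-- **IMT** -/
def IMT_stmt : Prop := ∀ (n : ℕ) (C : Matrix (Fin n) (Fin n) ℤ) [IsC C] (F : Type) [Field F] (j0 : Fin n) (θ : Fin n → ℤ) (δ : Fin 5 → Fin n),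
  IsD C j0 θ δ → ∀ x : MulAut (EG C F), RA C x → ∀ a b a' b' : Lm C F, Ex C a' → Ex C b' → Im C x a a' → Im C x b b' → Tp C θ a b 1 → Tp C θ a' b' 1

/-- **FIX** -/
def FIX_stmt : Prop := ∀ (n : ℕ) (C : Matrix (Fin n) (Fin n) ℤ) [IsC C] (F : Type) [Field F] (j0 : Fin n) (θ : Fin n → ℤ) (δ : Fin 5 → Fin n),
  IsD C j0 θ δ → (∀ x : MulAut (EG C F), (∀ a, Ex C a → Im C x a a) → x = 1) ∧ ∀ z : EG C F, (∀ g, z * g = g * z) → z = 1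

/-- **GEO** -/
def GEO_stmt : Prop := ∀ (n : ℕ) (C : Matrix (Fin n) (Fin n) ℤ) [IsC C] (F : Type) [Field F] (j0 : Fin n) (θ : Fin n → ℤ) (δ : Fin 5 → Fin n),
  IsD C j0 θ δ → ∀ x : MulAut (EG C F), RA C x → x ≠ 1 → ∃ a a' : Lm C F, ∃ m : ℤ, Ex C a ∧ Ex C a' ∧ Im C x a a' ∧ Tp C θ a a' m ∧
    (m = -2 ∨ m = -1 ∨ m = 0)

/-- **DMN** -/
def DMN_stmt : Prop := ∀ (n : ℕ) (C : Matrix (Fin n) (Fin n) ℤ) [IsC C] (j0 : Fin n) (θ : Fin n → ℤ) (δ : Fin 5 → Fin n), IsD C j0 θ δ →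
  Pos θ ∧ (∀ γ, Pos γ → 0 ≤ ip C γ θ) ∧ (∀ γ, ip C γ γ = 2 → 1 ≤ ip C γ θ → Pos γ) ∧
  ∀ β, ip C β β = 2 → β ≠ θ → ∃ i, ip C β (sr i) = -1 ∨ β = -sr i

/-- **FPU** -/
def FPU_stmt : Prop := ∀ (n : ℕ) (C : Matrix (Fin n) (Fin n) ℤ) [IsC C] (F : Type) [Field F] (j0 : Fin n) (θ : Fin n → ℤ) (δ : Fin 5 → Fin n),
  IsD C j0 θ δ → (∀ u ∈ UG C F, u (E C θ) = E C θ) ∧
  ∀ a : Lm C F, Ex C a → (∀ u ∈ UG C F, ∃ κ : F, u a = κ • a) → ∃ c : F, a = c • E C θ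

/-- **SYL** -/
def SYL_stmt : Prop := ∀ (n : ℕ) (C : Matrix (Fin n) (Fin n) ℤ) [IsC C] (F : Type) [Field F] [Finite F] (j0 : Fin n) (θ : Fin n → ℤ)
  (δ : Fin 5 → Fin n), IsD C j0 θ δ → ∀ p : ℕ, p.Prime → CharP F p → ∀ P : Subgroup (EG C F), IsPGroup p P →
  (∀ g : EG C F, (g : Lm C F ≃ₗ[F] Lm C F) ∈ UG C F → g ∈ P) → ∀ g ∈ P, (g : Lm C F ≃ₗ[F] Lm C F) (E C θ) = E C θ

/-- **GMN** -/
def GMN_stmt : Prop := ∀ (n : ℕ) (C : Matrix (Fin n) (Fin n) ℤ) [IsC C] (F : Type) [Field F] (j0 : Fin n) (θ : Fin n → ℤ) (δ : Fin 5 → Fin n),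
  IsD C j0 θ δ → ∀ g ∈ GE C F, (∀ γ, ip C γ γ = 2 → Pos γ → g (E C γ) = E C γ) → g (E C (-θ)) = E C (-θ) → g = 1

/-- **CUB** -/
def CUB_stmt : Prop := ∀ (n : ℕ) (C : Matrix (Fin n) (Fin n) ℤ) [IsC C] (F : Type) [Field F] (j0 : Fin n) (θ : Fin n → ℤ) (δ : Fin 5 → Fin n),
  IsD C j0 θ δ → ∀ g ∈ GE C F, (∀ u ∈ UG C F, u * g = g * u) → (∀ γ, ip C γ γ = 2 → Pos γ → g (E C γ) = E C γ) ∧
  (∀ γ, ip C γ γ = 2 → Pos γ → γ ≠ θ → fm C (E C γ) (g (E C (-θ))) = 0) ∧ ∃ u ∈ UG C F, g (E C (-θ)) = u (E C (-θ))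

/-- **QUN** -/
def QUN_stmt : Prop := ∀ (n : ℕ) (C : Matrix (Fin n) (Fin n) ℤ) [IsC C] (F : Type) [Field F] (j0 : Fin n) (θ : Fin n → ℤ) (δ : Fin 5 → Fin n),
  IsD C j0 θ δ → ∀ u ∈ UG C F, ∃ q ∈ UQ C F θ, u (E C (-θ)) = q (E C (-θ))

/-- **QNF** -/
def QNF_stmt : Prop := ∀ (n : ℕ) (C : Matrix (Fin n) (Fin n) ℤ) [IsC C] (F : Type) [Field F] (j0 : Fin n) (θ : Fin n → ℤ) (δ : Fin 5 → Fin n),
  IsD C j0 θ δ → ∀ q ∈ UQ C F θ, (∀ γ, ip C γ γ = 2 → ip C γ θ = 1 → fm C (E C (θ - γ)) (q (E C (-θ))) = 0) → ∃ t, IsX C (E C θ) t q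

/-- **CUX** -/
def CUX_stmt : Prop := ∀ (n : ℕ) (C : Matrix (Fin n) (Fin n) ℤ) [IsC C] (F : Type) [Field F] (j0 : Fin n) (θ : Fin n → ℤ) (δ : Fin 5 → Fin n),
  IsD C j0 θ δ → ∀ g ∈ GE C F, (∀ u ∈ UG C F, u * g = g * u) → ∃ t, IsX C (E C θ) t g

/-- **ARA** -/
def ARA_stmt : Prop := ∀ (n : ℕ) (C : Matrix (Fin n) (Fin n) ℤ) [IsC C] (F : Type) [Field F] [Finite F] (j0 : Fin n) (θ : Fin n → ℤ)
  (δ : Fin 5 → Fin n), IsD C j0 θ δ → ∀ x : MulAut (EG C F), RA C x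

end Pool.Agent.EXD
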